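import Pool.Agent.H17.EE.XDefs
import Pool.Agent.H97.VG.CD
import Pool.Agent.H97.VG.PD

/-!
# MP_70ba79_ag, Theorem E, part X: restriction to a rational normal curve
-/

set_option autoImplicit false

namespace Pool.Agent.H17.EE

open MvPolynomial SC Pool.Agent.H27.LV Pool.Agent.H17.VG Pool.Agent.H97.VG

section Basic

variable {K : Type} [Field K] {n r : ℕ}

theorem resC_add (z : Fin (r + 1) → Fin (n + 1) → K) (p q : MvPolynomial (Fin (n + 1)) K) :
    resC z (p + q) = resC z p + resC z q := by
  unfold resC
  rw [map_add]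

theorem resC_mul (z : Fin (r + 1) → Fin (n + 1) → K) (p q : MvPolynomial (Fin (n + 1)) K) :
    resC z (p * q) = resC z p * resC z q := by
  unfold resC
  rw [map_mul]

theorem resC_C (z : Fin (r + 1) → Fin (n + 1) → K) (a : K) :
    resC z (C a) = Polynomial.C a := by
  unfold resC
  rw [aeval_C]
  rfl

theorem resC_zero (z : Fin (r + 1) → Fin (n + 1) → K) : resC z 0 = 0 := by
  unfold resC
  rw [map_zero]

theorem resC_one (z : Fin (r + 1) → Fin (n + 1) → K) : resC z 1 = 1 := by
  unfold resC
  rw [map_one]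

theorem resC_X (z : Fin (r + 1) → Fin (n + 1) → K) (i : Fin (n + 1)) :
    resC z (X i) = ∑ j : Fin (r + 1), Polynomial.C (z j i) * Polynomial.X ^ (j : ℕ) := by
  unfold resC
  rw [aeval_X]

theorem resC_sum {ι : Type} (s : Finset ι) (z : Fin (r + 1) → Fin (n + 1) → K)
    (f : ι → MvPolynomial (Fin (n + 1)) K) :
    resC z (∑ i ∈ s, f i) = ∑ i ∈ s, resC z (f i) := by
  unfold resC
  rw [map_sum]

theorem resC_prod {ι : Type} (s : Finset ι) (z : Fin (r + 1) → Fin (n + 1) → K)
    (f : ι → MvPolynomial (Fin (n + 1)) K) :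
    resC z (∏ i ∈ s, f i) = ∏ i ∈ s, resC z (f i) := by
  unfold resC
  rw [map_prod]

theorem resC_pow (z : Fin (r + 1) → Fin (n + 1) → K) (p : MvPolynomial (Fin (n + 1)) K) (m : ℕ) :
    resC z (p ^ m) = resC z p ^ m := by
  unfold resC
  rw [map_pow]

theorem resC_dir (z : Fin (r + 1) → Fin (n + 1) → K) (w : Fin (n + 1) → K)
    (G : MvPolynomial (Fin (n + 1)) K) :
    resC z (dir w G) = ∑ l, Polynomial.C (w l) * resC z (pderiv l G) := by
  unfold dir
  rw [resC_sum]
  exact Finset.sum_congr rfl fun l _ => by rw [resC_mul, resC_C]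

/-- base change -/
theorem resC_map {L : Type} [Field L] (σ : K →+* L) (z : Fin (r + 1) → Fin (n + 1) → K)
    (G : MvPolynomial (Fin (n + 1)) K) :
    (resC z G).map σ = resC (fun j i => σ (z j i)) (MvPolynomial.map σ G) := by
  induction G using MvPolynomial.induction_on with
  | C a => rw [resC_C, Polynomial.map_C, MvPolynomial.map_C, resC_C]
  | add p q hp hq => rw [resC_add, Polynomial.map_add, hp, hq, map_add, resC_add]
  | mul_X p i hp =>
    rw [resC_mul, Polynomial.map_mul, hp, map_mul, resC_mul, MvPolynomial.map_X, resC_X, resC_X,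
      Polynomial.map_sum]
    congr 1
    refine Finset.sum_congr rfl fun j _ => ?_
    rw [Polynomial.map_mul, Polynomial.map_pow, Polynomial.map_C, Polynomial.map_X]

/-- the value of the restriction -/
theorem eval_resC (z : Fin (r + 1) → Fin (n + 1) → K) (G : MvPolynomial (Fin (n + 1)) K) (T : K) :
    (resC z G).eval T = eval (fun i => ∑ j : Fin (r + 1), T ^ (j : ℕ) * z j i) G := by
  induction G using MvPolynomial.induction_on with
  | C a => rw [resC_C, Polynomial.eval_C, eval_C]
  | add p q hp hq => rw [resC_add, Polynomial.eval_add, hp, hq, map_add]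
  | mul_X p i hp =>
    rw [resC_mul, Polynomial.eval_mul, hp, map_mul, eval_X, resC_X, Polynomial.eval_finset_sum]
    congr 1
    refine Finset.sum_congr rfl fun j _ => ?_
    rw [Polynomial.eval_mul, Polynomial.eval_C, Polynomial.eval_pow, Polynomial.eval_X, mul_comm]

/-- a left inverse of an independent family -/
theorem exists_leftInv {z : Fin (r + 1) → Fin (n + 1) → K} (hz : LinearIndependent K z) :
    ∃ W : Fin (n + 1) → Fin (r + 1) → K, ∀ i j, ∑ l, z i l * W l j = if i = j then 1 else 0 := by
  classical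
  have hinj : LinearMap.ker (Fintype.linearCombination K z) = ⊥ := by
    rw [LinearMap.ker_eq_bot]
    exact hz.fintypeLinearCombination_injective
  obtain ⟨g, hg⟩ := LinearMap.exists_leftInverse_of_injective _ hinj
  refine ⟨fun l j => g (Pi.single l 1) j, fun i j => ?_⟩
  have h := LinearMap.congr_fun hg (Pi.single i 1)
  have h1 : g (z i) = Pi.single i 1 := by
    simpa [Fintype.linearCombination_apply, Pi.single_apply] using h
  have h2 : g (z i) j = ∑ l, z i l * g (Pi.single l 1) j := by
    conv_lhs => rw [← Finset.univ_sum_single (z i)]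
    rw [map_sum, Finset.sum_apply]
    refine Finset.sum_congr rfl fun l _ => ?_
    have h3 : (Pi.single l (z i l) : Fin (n + 1) → K) = z i l • Pi.single l 1 := by
      rw [← Pi.single_smul]
      simp
    rw [h3, map_smul, Pi.smul_apply, smul_eq_mul]
  rw [← h2, h1, Pi.single_apply]
  by_cases hij : i = j
  · rw [if_pos hij, if_pos hij.symm]
  · rw [if_neg hij, if_neg (Ne.symm hij)]

theorem linInd_of_leftInv {z : Fin (r + 1) → Fin (n + 1) → K} {W : Fin (n + 1) → Fin (r + 1) → K}
    (h : ∀ i j, ∑ l, z i l * W l j = if i = j then 1 else 0) : LinearIndependent K z := by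
  classical
  rw [Fintype.linearIndependent_iff]
  intro g hg j
  have h1 : ∑ l, (∑ i, g i • z i) l * W l j = 0 := by
    rw [hg]
    simp
  have h2 : ∑ l, (∑ i, g i • z i) l * W l j = ∑ i, g i * ∑ l, z i l * W l j := by
    simp only [Finset.sum_apply, Pi.smul_apply, smul_eq_mul, Finset.sum_mul, Finset.mul_sum]
    rw [Finset.sum_comm]
    exact Finset.sum_congr rfl fun i _ => Finset.sum_congr rfl fun l _ => by ring
  rw [h2] at h1
  simp only [h] at h1
  simpa using h1

/-- RSR: restriction to a rational normal curve is onto -/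
theorem resC_onto (d : ℕ) {z : Fin (r + 1) → Fin (n + 1) → K} (hz : LinearIndependent K z)
    (P : Polynomial K) (hP : P.natDegree ≤ r * d) :
    ∃ G : MvPolynomial (Fin (n + 1)) K, G.IsHomogeneous d ∧ resC z G = P := by
  classical
  obtain ⟨W, hW⟩ := exists_leftInv hz
  let l : Fin (r + 1) → MvPolynomial (Fin (n + 1)) K := fun u => ∑ i, C (W i u) * X i
  have hl : ∀ u, resC z (l u) = Polynomial.X ^ (u : ℕ) := by
    intro u
    have h1 : resC z (l u) = ∑ i, Polynomial.C (W i u) *
        ∑ j : Fin (r + 1), Polynomial.C (z j i) * Polynomial.X ^ (j : ℕ) := by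
      rw [resC_sum]
      exact Finset.sum_congr rfl fun i _ => by rw [resC_mul, resC_C, resC_X]
    have h2 : ∑ i, Polynomial.C (W i u) *
        ∑ j : Fin (r + 1), Polynomial.C (z j i) * Polynomial.X ^ (j : ℕ) =
        ∑ j : Fin (r + 1), Polynomial.C (∑ i, z j i * W i u) * Polynomial.X ^ (j : ℕ) := by
      simp only [Finset.mul_sum, map_sum, Finset.sum_mul, map_mul]
      rw [Finset.sum_comm]
      exact Finset.sum_congr rfl fun j _ => Finset.sum_congr rfl fun i _ => by ring
    rw [h1, h2]
    simp only [hW]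
    rw [Finset.sum_eq_single u]
    · rw [if_pos rfl, map_one, one_mul]
    · intro j _ hj
      rw [if_neg hj, map_zero, zero_mul]
    · intro h
      exact absurd (Finset.mem_univ u) h
  have hhom : ∀ u, (l u).IsHomogeneous 1 := by
    intro u
    refine IsHomogeneous.sum _ _ _ fun i _ => ?_
    have h := (isHomogeneous_C (Fin (n + 1)) (W i u)).mul (isHomogeneous_X K i)
    simpa using h
  have hmon : ∀ e m : ℕ, m ≤ r * e → ∃ G : MvPolynomial (Fin (n + 1)) K, G.IsHomogeneous e ∧
      resC z G = Polynomial.X ^ m := by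
    intro e
    induction e with
    | zero =>
      intro m hm
      obtain rfl : m = 0 := by simpa using hm
      exact ⟨1, isHomogeneous_one _ _, by rw [resC_one, pow_zero]⟩
    | succ e ih =>
      intro m hm
      obtain ⟨u, hu⟩ : ∃ u, u = min m r := ⟨_, rfl⟩
      have hur : u < r + 1 := by omega
      obtain ⟨G, hG, hGm⟩ := ih (m - u) (by
        rw [Nat.mul_succ] at hm
        omega)
      refine ⟨G * l ⟨u, hur⟩, hG.mul (hhom _), ?_⟩
      rw [resC_mul, hGm, hl, ← pow_add]
      congr 1
      change m - u + u = m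
      omega
  choose! w hw hwm using hmon d
  refine ⟨∑ m ∈ Finset.range (r * d + 1), C (P.coeff m) * w m, ?_, ?_⟩
  · refine IsHomogeneous.sum _ _ _ fun m hm => ?_
    have h := (isHomogeneous_C (Fin (n + 1)) (P.coeff m)).mul
      (hw m (Nat.lt_succ_iff.1 (Finset.mem_range.1 hm)))
    simpa using h
  · rw [resC_sum]
    have h1 : ∀ m ∈ Finset.range (r * d + 1), resC z (C (P.coeff m) * w m) =
        Polynomial.C (P.coeff m) * Polynomial.X ^ m := by
      intro m hm
      rw [resC_mul, resC_C, hwm m (Nat.lt_succ_iff.1 (Finset.mem_range.1 hm))]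
    rw [Finset.sum_congr rfl h1]
    exact (P.as_sum_range_C_mul_X_pow' (by omega)).symm

end Basic

section Der

variable {R K : Type} [Field R] [Field K] [Algebra R K] {n r : ℕ}

private theorem dir_add (w : Fin (n + 1) → K) (p q : MvPolynomial (Fin (n + 1)) K) :
    dir w (p + q) = dir w p + dir w q := by
  unfold dir
  rw [← Finset.sum_add_distrib]
  exact Finset.sum_congr rfl fun i _ => by rw [map_add, mul_add]

private theorem dir_C (w : Fin (n + 1) → K) (a : K) :
    dir w (C a : MvPolynomial (Fin (n + 1)) K) = 0 := by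
  unfold dir
  exact Finset.sum_eq_zero fun i _ => by rw [pderiv_C, mul_zero]

private theorem dir_mul_X (w : Fin (n + 1) → K) (p : MvPolynomial (Fin (n + 1)) K)
    (i : Fin (n + 1)) : dir w (p * X i) = dir w p * X i + p * C (w i) := by
  classical
  unfold dir
  rw [Finset.sum_mul]
  have h1 : p * C (w i) = ∑ j, C (w j) * (p * pderiv j (X i : MvPolynomial (Fin (n + 1)) K)) := by
    rw [Finset.sum_eq_single i]
    · rw [pderiv_X_self, mul_one, mul_comm]
    · intro j _ hj
      rw [pderiv_X_of_ne (Ne.symm hj), mul_zero, mul_zero]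
    · intro h
      exact absurd (Finset.mem_univ i) h
  rw [h1, ← Finset.sum_add_distrib]
  refine Finset.sum_congr rfl fun j _ => ?_
  rw [pderiv_mul]
  ring

theorem pD_sum {ι : Type} (s : Finset ι) (θ : Derivation R K K) (f : ι → Polynomial K) :
    pD θ (∑ i ∈ s, f i) = ∑ i ∈ s, pD θ (f i) := by
  classical
  induction s using Finset.induction_on with
  | empty =>
    rw [Finset.sum_empty, Finset.sum_empty]
    have h := pD_add θ (0 : Polynomial K) 0
    rw [add_zero] at h
    simpa using h
  | insert a s ha ih => rw [Finset.sum_insert ha, Finset.sum_insert ha, pD_add, ih]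

theorem pD_Xpow (θ : Derivation R K K) (m : ℕ) : pD θ (Polynomial.X ^ m : Polynomial K) = 0 := by
  induction m with
  | zero =>
    rw [pow_zero, ← Polynomial.C_1, pD_C, Derivation.map_one_eq_zero, Polynomial.C_0]
  | succ m ih => rw [pow_succ, pD_mul, ih, pD_X, zero_mul, mul_zero, add_zero]

/-- DRR: a derivation applied to the restriction -/
theorem pD_resC (θ : Derivation R K K) (z : Fin (r + 1) → Fin (n + 1) → K)
    (G : MvPolynomial (Fin (n + 1)) K) :
    pD θ (resC z G) = resC z (cD θ G) +
      ∑ j : Fin (r + 1), Polynomial.X ^ (j : ℕ) * resC z (dir (fun i => θ (z j i)) G) := by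
  induction G using MvPolynomial.induction_on with
  | C a =>
    rw [resC_C, pD_C, cD_C, resC_C]
    simp only [dir_C, resC_zero, mul_zero, Finset.sum_const_zero, add_zero]
  | add p q hp hq =>
    rw [resC_add, pD_add, hp, hq, cD_add, resC_add]
    simp only [dir_add, resC_add, mul_add, Finset.sum_add_distrib]
    ring
  | mul_X p i hp =>
    have h1 : pD θ (∑ j : Fin (r + 1), Polynomial.C (z j i) * Polynomial.X ^ (j : ℕ)) =
        ∑ j : Fin (r + 1), Polynomial.C (θ (z j i)) * Polynomial.X ^ (j : ℕ) := by
      rw [pD_sum]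
      refine Finset.sum_congr rfl fun j _ => ?_
      rw [pD_mul, pD_C, pD_Xpow, mul_zero, add_zero]
    rw [resC_mul, pD_mul, hp, cD_mul, cD_X, mul_zero, add_zero, resC_mul, resC_X, h1]
    simp only [dir_mul_X, resC_add, resC_mul, resC_C, resC_X]
    simp only [mul_add, Finset.sum_add_distrib]
    have h2 : ∀ S : Polynomial K, (∑ j : Fin (r + 1), Polynomial.X ^ (j : ℕ) *
        (resC z (dir (fun i => θ (z j i)) p) * S)) =
        (∑ j : Fin (r + 1), Polynomial.X ^ (j : ℕ) * resC z (dir (fun i => θ (z j i)) p)) * S := by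
      intro S
      rw [Finset.sum_mul]
      exact Finset.sum_congr rfl fun j _ => by ring
    have h3 : (∑ j : Fin (r + 1), Polynomial.X ^ (j : ℕ) *
        (resC z p * Polynomial.C (θ (z j i)))) =
        resC z p * ∑ j : Fin (r + 1), Polynomial.C (θ (z j i)) * Polynomial.X ^ (j : ℕ) := by
      rw [Finset.mul_sum]
      exact Finset.sum_congr rfl fun j _ => by ring
    rw [h2, h3]
    ring

end Der

end Pool.Agent.H17.EE
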