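import Pool.Agent.H17.VG.TargetsF

/-!
# MP_70ba79_ag, Theorem E, part X: exceptional rational normal curves

Restriction of forms to the curve `z 0 + s z 1 + ... + s ^ r z r` and the target of part X.
-/

set_option autoImplicit false

namespace Pool.Agent.H17.EE

open MvPolynomial SC Pool.Agent.H27.LV Pool.Agent.H17.VG

/-- restriction of a form to the curve `z 0 + s z 1 + ... + s ^ r z r` -/
noncomputable def resC {K : Type} [Field K] {n r : ℕ} (z : Fin (r + 1) → Fin (n + 1) → K)
    (G : MvPolynomial (Fin (n + 1)) K) : Polynomial K :=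
  aeval (fun i => ∑ j : Fin (r + 1), Polynomial.C (z j i) * Polynomial.X ^ (j : ℕ)) G

/-- the restriction of `F` (of degree `d`) to the curve has at most two different zeros:
`F (z 0 + s z 1 + ... + s ^ r z r) = F (z 0) (1 + α s) ^ a (1 + β s) ^ b`, `a + b = r d` -/
def TwoR {K : Type} [Field K] {n : ℕ} (r d : ℕ) (F : MvPolynomial (Fin (n + 1)) K)
    (z : Fin (r + 1) → Fin (n + 1) → K) : Prop :=
  ∃ (α β : AlgebraicClosure K) (a b : ℕ), a + b = r * d ∧
    (resC z F).map (algebraMap K (AlgebraicClosure K)) =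
      Polynomial.C (algebraMap K (AlgebraicClosure K) (eval (z 0) F)) *
        (1 + Polynomial.C α * Polynomial.X) ^ a * (1 + Polynomial.C β * Polynomial.X) ^ b

/-- XR: there is a hypersurface which contains all points on exceptional rational normal curves of
degree at most `R` -/
def T_XR : Prop := ∀ (k : Type) [Field k] [CharZero k] (n d R : ℕ) (c : Mon (n + 1) d → k),
  n + 2 ≤ d → AlgebraicIndependent ℚ c →
  ∃ (Φ : MvPolynomial (Fin (n + 1)) k) (m : ℕ), Φ ≠ 0 ∧ Φ.IsHomogeneous m ∧
    ∀ (K : Type) [Field K] [Algebra k K] (r : ℕ) (z : Fin (r + 1) → Fin (n + 1) → K)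
      (p : Fin (n + 1)), 1 ≤ r → r ≤ R → z 0 p = 1 → LinearIndependent K z →
      TwoR r d (up K (frm c)) z → eval (z 0) (up K Φ) = 0

end Pool.Agent.H17.EE
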