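import Pool.Agent.H17.EE.XB
import Pool.Agent.H49.CI.XMT
import Pool.Agent.H33.VGH.DEX

/-!
# MP_70ba79_ag, Theorem E, part X: dimension count
-/

set_option autoImplicit false

namespace Pool.Agent.H17.EE

open MvPolynomial SC Pool.Agent.H27.LV Pool.Agent.H17.VG

section
variable {L : Type} [Field L] {n r : ℕ}

theorem cD_frm' {R : Type} [Field R] [Algebra R L] {d : ℕ} (θ : Derivation R L L)
    (c : Mon (n + 1) d → L) (G : MvPolynomial (Fin (n + 1)) L) (hG : G.IsHomogeneous d)
    (h : ∀ M, θ (c M) = coeff (fs M.1) G) : cD θ (frm c) = G := by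
  have h1 : (frm c).IsHomogeneous d := frm_homog c
  have h2 := Pool.Agent.H97.VG.cD_homog θ _ d h1
  rw [← frm_coeff h2, ← frm_coeff hG]
  congr 1
  funext M
  rw [Pool.Agent.H97.VG.cD_coeff, Pool.Agent.H49.CI.coeff_frm, h]

theorem pD_exc2 {R : Type} [Field R] [Algebra R L] (θ : Derivation R L L) (f α β : L)
    (i j : ℕ) :
    pD θ (Polynomial.C f * (1 + Polynomial.C α * Polynomial.X) ^ i *
        (1 + Polynomial.C β * Polynomial.X) ^ j) =
      Polynomial.C (θ f) * ((1 + Polynomial.C α * Polynomial.X) ^ i *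
        (1 + Polynomial.C β * Polynomial.X) ^ j) +
      Polynomial.C (θ α) * (Polynomial.C f * (i : Polynomial L) * Polynomial.X *
        (1 + Polynomial.C α * Polynomial.X) ^ (i - 1) *
        (1 + Polynomial.C β * Polynomial.X) ^ j) +
      Polynomial.C (θ β) * (Polynomial.C f * (1 + Polynomial.C α * Polynomial.X) ^ i *
        (j : Polynomial L) * Polynomial.X * (1 + Polynomial.C β * Polynomial.X) ^ (j - 1)) := by
  rw [Pool.Agent.H97.VG.pD_mul, Pool.Agent.H49.CI.pD_exc, Pool.Agent.H49.CI.pD_pow,
    Pool.Agent.H97.VG.pD_add, Pool.Agent.H49.CI.pD_one, Pool.Agent.H97.VG.pD_mul,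
    Pool.Agent.H97.VG.pD_C, Pool.Agent.H97.VG.pD_X]
  ring

private theorem dir_add (w : Fin (n + 1) → L) (p q : MvPolynomial (Fin (n + 1)) L) :
    dir w (p + q) = dir w p + dir w q := by
  unfold dir
  rw [← Finset.sum_add_distrib]
  exact Finset.sum_congr rfl fun i _ => by rw [map_add, mul_add]

private theorem dir_C (w : Fin (n + 1) → L) (a : L) :
    dir w (C a : MvPolynomial (Fin (n + 1)) L) = 0 := by
  unfold dir
  exact Finset.sum_eq_zero fun i _ => by rw [pderiv_C, mul_zero]

private theorem dir_mul_X (w : Fin (n + 1) → L) (p : MvPolynomial (Fin (n + 1)) L)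
    (i : Fin (n + 1)) : dir w (p * X i) = dir w p * X i + p * C (w i) := by
  classical
  unfold dir
  rw [Finset.sum_mul]
  have h1 : p * C (w i) = ∑ j, C (w j) * (p * pderiv j (X i : MvPolynomial (Fin (n + 1)) L)) := by
    rw [Finset.sum_eq_single i]
    · rw [pderiv_X_self, mul_one, mul_comm]
    · intro j _ hj
      rw [pderiv_X_of_ne (Ne.symm hj), mul_zero, mul_zero]
    · intro h
      exact absurd (Finset.mem_univ i) h
  rw [h1, ← Finset.sum_add_distrib]
  refine Finset.sum_congr rfl fun j _ => ?_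
  rw [pderiv_mul]
  ring

/-- the derivative of the restriction -/
theorem deriv_resC (z : Fin (r + 1) → Fin (n + 1) → L) (G : MvPolynomial (Fin (n + 1)) L) :
    Polynomial.X * (resC z G).derivative =
      ∑ j : Fin (r + 1), Polynomial.X ^ (j : ℕ) * resC z (dir (fun i => ((j : ℕ) : L) * z j i) G) := by
  induction G using MvPolynomial.induction_on with
  | C a =>
    rw [resC_C, Polynomial.derivative_C]
    simp only [dir_C, resC_zero, mul_zero, Finset.sum_const_zero]
  | add p q hp hq =>
    rw [resC_add, Polynomial.derivative_add, mul_add, hp, hq]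
    simp only [dir_add, resC_add, mul_add, Finset.sum_add_distrib]
  | mul_X p i hp =>
    have h1 : Polynomial.X * (∑ j : Fin (r + 1), Polynomial.C (z j i) *
        Polynomial.X ^ (j : ℕ)).derivative =
        ∑ j : Fin (r + 1), Polynomial.C (((j : ℕ) : L) * z j i) * Polynomial.X ^ (j : ℕ) := by
      rw [Polynomial.derivative_sum, Finset.mul_sum]
      refine Finset.sum_congr rfl fun j _ => ?_
      rw [Polynomial.derivative_C_mul_X_pow]
      rcases Nat.eq_zero_or_pos (j : ℕ) with h0 | h0
      · rw [h0]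
        simp
      · obtain ⟨m, hm⟩ : ∃ m, (j : ℕ) = m + 1 := ⟨(j : ℕ) - 1, by omega⟩
        rw [hm, Nat.add_sub_cancel, pow_succ]
        rw [mul_comm (z j i)]
        ring
    rw [resC_mul, Polynomial.derivative_mul, mul_add]
    have e1 : Polynomial.X * ((resC z p).derivative * resC z (X i)) =
        (Polynomial.X * (resC z p).derivative) * resC z (X i) := by ring
    have e2 : Polynomial.X * (resC z p * (resC z (X i)).derivative) =
        resC z p * (Polynomial.X * (resC z (X i)).derivative) := by ring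
    rw [e1, e2, hp, resC_X, h1]
    simp only [dir_mul_X, resC_add, resC_mul, resC_C, resC_X]
    simp only [mul_add, Finset.sum_add_distrib]
    have h2 : ∀ S : Polynomial L, (∑ j : Fin (r + 1), Polynomial.X ^ (j : ℕ) *
        (resC z (dir (fun i => ((j : ℕ) : L) * z j i) p) * S)) =
        (∑ j : Fin (r + 1), Polynomial.X ^ (j : ℕ) *
          resC z (dir (fun i => ((j : ℕ) : L) * z j i) p)) * S := by
      intro S
      rw [Finset.sum_mul]
      exact Finset.sum_congr rfl fun j _ => by ring
    have h3 : (∑ j : Fin (r + 1), Polynomial.X ^ (j : ℕ) *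
        (resC z p * Polynomial.C (((j : ℕ) : L) * z j i))) =
        resC z p * ∑ j : Fin (r + 1), Polynomial.C (((j : ℕ) : L) * z j i) *
          Polynomial.X ^ (j : ℕ) := by
      rw [Finset.mul_sum]
      exact Finset.sum_congr rfl fun j _ => by ring
    rw [h2, h3]

/-- the formula of Euler for the restriction -/
theorem euler_resC {d : ℕ} (z : Fin (r + 1) → Fin (n + 1) → L) {G : MvPolynomial (Fin (n + 1)) L}
    (hG : G.IsHomogeneous d) :
    Polynomial.C (d : L) * resC z G =
      ∑ j : Fin (r + 1), Polynomial.X ^ (j : ℕ) * resC z (dir (z j) G) := by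
  have h1 := congrArg (resC z) hG.sum_X_mul_pderiv
  rw [resC_sum] at h1
  have h2 : resC z (d • G) = Polynomial.C (d : L) * resC z G := by
    rw [nsmul_eq_mul, resC_mul]
    congr 1
    rw [← map_natCast (C : L →+* MvPolynomial (Fin (n + 1)) L), resC_C]
  rw [h2] at h1
  rw [← h1]
  simp only [resC_mul, resC_X, resC_dir, Finset.mul_sum, Finset.sum_mul]
  rw [Finset.sum_comm]
  exact Finset.sum_congr rfl fun i _ => Finset.sum_congr rfl fun j _ => by ring

/-- the three extra vectors -/
noncomputable def v3 (f α β : L) (a b : ℕ) : Fin 3 → Polynomial L :=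
  ![(1 + Polynomial.C α * Polynomial.X) ^ a * (1 + Polynomial.C β * Polynomial.X) ^ b,
    Polynomial.C f * (a : Polynomial L) * Polynomial.X *
      (1 + Polynomial.C α * Polynomial.X) ^ (a - 1) * (1 + Polynomial.C β * Polynomial.X) ^ b,
    Polynomial.C f * (1 + Polynomial.C α * Polynomial.X) ^ a *
      (b : Polynomial L) * Polynomial.X * (1 + Polynomial.C β * Polynomial.X) ^ (b - 1)]

/-- the vectors of the dimension count -/
noncomputable def vR (z : Fin (r + 1) → Fin (n + 1) → L)
    (F : MvPolynomial (Fin (n + 1)) L) (f α β : L) (a b : ℕ) :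
    ((Fin r × Fin (n + 1)) ⊕ Fin 3) → Polynomial L
  | Sum.inl t => Polynomial.X ^ ((t.1 : ℕ) + 1) * resC z (pderiv t.2 F)
  | Sum.inr t => v3 f α β a b t

theorem deriv_exc2 (f α β : L) (a b : ℕ) :
    Polynomial.X * Polynomial.derivative
      (Polynomial.C f * (1 + Polynomial.C α * Polynomial.X) ^ a *
        (1 + Polynomial.C β * Polynomial.X) ^ b) =
      Polynomial.C α * v3 f α β a b 1 + Polynomial.C β * v3 f α β a b 2 := by
  rw [Polynomial.derivative_mul, Polynomial.derivative_mul, Polynomial.derivative_pow,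
    Polynomial.derivative_pow]
  simp only [Polynomial.derivative_C, map_add, Polynomial.derivative_one,
    Polynomial.derivative_mul, Polynomial.derivative_X, map_natCast, v3, Matrix.cons_val_one,
    Matrix.cons_val, Matrix.cons_val_zero]
  ring

theorem euler_exc2 (f α β : L) (a b : ℕ) :
    Polynomial.C ((a + b : ℕ) : L) * Polynomial.X *
      (Polynomial.C f * (1 + Polynomial.C α * Polynomial.X) ^ a *
        (1 + Polynomial.C β * Polynomial.X) ^ b) -
      Polynomial.X * (Polynomial.X * Polynomial.derivative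
      (Polynomial.C f * (1 + Polynomial.C α * Polynomial.X) ^ a *
        (1 + Polynomial.C β * Polynomial.X) ^ b)) =
      v3 f α β a b 1 + v3 f α β a b 2 := by
  have hp : ∀ (u : L) (m : ℕ), (m : Polynomial L) * (1 + Polynomial.C u * Polynomial.X) ^ m =
      (m : Polynomial L) * (1 + Polynomial.C u * Polynomial.X) ^ (m - 1) *
        (1 + Polynomial.C u * Polynomial.X) := by
    intro u m
    rcases Nat.eq_zero_or_pos m with h | h
    · rw [h]
      simp
    · obtain ⟨e, rfl⟩ : ∃ e, m = e + 1 := ⟨m - 1, by omega⟩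
      rw [Nat.add_sub_cancel, pow_succ]
      ring
  rw [deriv_exc2]
  have ha := hp α a
  have hb := hp β b
  have hab : Polynomial.C ((a + b : ℕ) : L) = (a : Polynomial L) + (b : Polynomial L) := by
    rw [map_natCast, Nat.cast_add]
  rw [hab]
  simp only [v3, Matrix.cons_val_one, Matrix.cons_val, Matrix.cons_val_zero]
  linear_combination (Polynomial.X * Polynomial.C f *
    (1 + Polynomial.C β * Polynomial.X) ^ b) * ha + (Polynomial.X * Polynomial.C f *
    (1 + Polynomial.C α * Polynomial.X) ^ a) * hb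

/-- first relation -/
theorem rel1 {z : Fin (r + 1) → Fin (n + 1) → L} {F : MvPolynomial (Fin (n + 1)) L}
    {f α β : L} {a b : ℕ}
    (h : resC z F = Polynomial.C f * (1 + Polynomial.C α * Polynomial.X) ^ a *
        (1 + Polynomial.C β * Polynomial.X) ^ b) :
    Fintype.linearCombination L (vR z F f α β a b)
      (Sum.elim (fun t => (((t.1 : ℕ) + 1 : ℕ) : L) * z t.1.succ t.2) ![0, -α, -β]) = 0 := by
  have h1 := deriv_resC z F
  rw [h, deriv_exc2, Fin.sum_univ_succ] at h1
  rw [Fintype.linearCombination_apply, Fintype.sum_sum_type, Fintype.sum_prod_type,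
    Fin.sum_univ_three]
  have h2 : resC z (dir (fun i => (((0 : Fin (r + 1)) : ℕ) : L) * z 0 i) F) = 0 := by
    rw [resC_dir]
    refine Finset.sum_eq_zero fun l _ => ?_
    simp
  rw [h2, mul_zero, zero_add] at h1
  have h3 : ∀ i : Fin r, (∑ l : Fin (n + 1), (Sum.elim (fun t : Fin r × Fin (n + 1) =>
      (((t.1 : ℕ) + 1 : ℕ) : L) * z t.1.succ t.2) ![0, -α, -β] : _ → L) (Sum.inl (i, l)) •
        vR z F f α β a b (Sum.inl (i, l))) = Polynomial.X ^ (i.succ : ℕ) *
          resC z (dir (fun l => ((i.succ : ℕ) : L) * z i.succ l) F) := by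
    intro i
    rw [resC_dir, Finset.mul_sum]
    refine Finset.sum_congr rfl fun l _ => ?_
    rw [Polynomial.smul_eq_C_mul]
    simp only [Sum.elim_inl, vR, Fin.val_succ]
    ring
  rw [Finset.sum_congr rfl fun i _ => h3 i, ← h1]
  simp only [Sum.elim_inr, vR, Matrix.cons_val_zero, Matrix.cons_val_one, Matrix.cons_val,
    zero_smul, neg_smul, Polynomial.smul_eq_C_mul]
  ring

/-- second relation -/
theorem rel2 {z : Fin (r + 1) → Fin (n + 1) → L} {F : MvPolynomial (Fin (n + 1)) L}
    {f α β : L} {a b d : ℕ} (hF : F.IsHomogeneous d) (hab : a + b = r * d)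
    (h : resC z F = Polynomial.C f * (1 + Polynomial.C α * Polynomial.X) ^ a *
        (1 + Polynomial.C β * Polynomial.X) ^ b) :
    Fintype.linearCombination L (vR z F f α β a b)
      (Sum.elim (fun t => ((r : L) - ((t.1 : ℕ) : L)) * z t.1.castSucc t.2) ![0, -1, -1]) = 0 := by
  have h1 := deriv_resC z F
  have h2 := euler_resC z hF
  have h3 := euler_exc2 f α β a b
  rw [← h, h1, hab] at h3
  have h4 : Polynomial.C ((r * d : ℕ) : L) * Polynomial.X * resC z F =
      ∑ j : Fin (r + 1), Polynomial.C (r : L) * Polynomial.X * (Polynomial.X ^ (j : ℕ) *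
        resC z (dir (z j) F)) := by
    rw [← Finset.mul_sum, ← h2, Nat.cast_mul, Polynomial.C_mul]
    ring
  rw [h4, Finset.mul_sum, ← Finset.sum_sub_distrib, Fin.sum_univ_castSucc] at h3
  have h5 : ∀ j : Fin (r + 1), Polynomial.C (r : L) * Polynomial.X * (Polynomial.X ^ (j : ℕ) *
        resC z (dir (z j) F)) - Polynomial.X * (Polynomial.X ^ (j : ℕ) *
        resC z (dir (fun i => ((j : ℕ) : L) * z j i) F)) =
      Polynomial.X ^ ((j : ℕ) + 1) * ∑ l, Polynomial.C (((r : L) - ((j : ℕ) : L)) * z j l) *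
        resC z (pderiv l F) := by
    intro j
    rw [resC_dir, resC_dir]
    simp only [Finset.mul_sum]
    rw [← Finset.sum_sub_distrib]
    refine Finset.sum_congr rfl fun l _ => ?_
    rw [Polynomial.C_mul, Polynomial.C_mul, Polynomial.C_sub]
    ring
  simp only [h5] at h3
  have h6 : (∑ l, Polynomial.C (((r : L) - (((Fin.last r : Fin (r + 1)) : ℕ) : L)) *
      z (Fin.last r) l) * resC z (pderiv l F)) = 0 := by
    refine Finset.sum_eq_zero fun l _ => ?_
    rw [Fin.val_last, sub_self, zero_mul, Polynomial.C_0, zero_mul]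
  rw [h6, mul_zero, add_zero] at h3
  rw [Fintype.linearCombination_apply, Fintype.sum_sum_type, Fintype.sum_prod_type,
    Fin.sum_univ_three]
  have h7 : ∀ i : Fin r, (∑ l : Fin (n + 1), (Sum.elim (fun t : Fin r × Fin (n + 1) =>
      ((r : L) - ((t.1 : ℕ) : L)) * z t.1.castSucc t.2) ![0, -1, -1] : _ → L) (Sum.inl (i, l)) •
        vR z F f α β a b (Sum.inl (i, l))) = Polynomial.X ^ ((i.castSucc : ℕ) + 1) *
          ∑ l, Polynomial.C (((r : L) - ((i.castSucc : ℕ) : L)) * z i.castSucc l) *
        resC z (pderiv l F) := by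
    intro i
    rw [Finset.mul_sum]
    refine Finset.sum_congr rfl fun l _ => ?_
    rw [Polynomial.smul_eq_C_mul]
    simp only [Sum.elim_inl, vR, Fin.val_castSucc]
    ring
  rw [Finset.sum_congr rfl fun i _ => h7 i, h3]
  simp only [Sum.elim_inr, vR, Matrix.cons_val_zero, Matrix.cons_val_one, Matrix.cons_val,
    zero_smul, neg_smul, one_smul]
  ring

/-- every polynomial of degree at most `r d` is a combination -/
theorem mem_spanR [CharZero L] {d : ℕ} {p : Fin (n + 1)} {c : Mon (n + 1) d → L}
    {z : Fin (r + 1) → Fin (n + 1) → L} {f α β : L} {a b : ℕ} (hzp : z 0 p = 1)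
    (hind : AlgebraicIndependent ℚ
      (Sum.elim c (fun l : {l : Fin (n + 1) // l ≠ p} => z 0 l.1)))
    (hlin : LinearIndependent L z)
    (heq : resC z (frm c) = Polynomial.C f * (1 + Polynomial.C α * Polynomial.X) ^ a *
        (1 + Polynomial.C β * Polynomial.X) ^ b)
    (P : Polynomial L) (hP : P.natDegree ≤ r * d) :
    P ∈ Submodule.span L (Set.range (vR z (frm c) f α β a b)) := by
  obtain ⟨G, hG, hGP⟩ := resC_onto d hlin P hP
  obtain ⟨D, hD⟩ := Pool.Agent.H33.VGH.pf_DEX L _ _ hind
    (Sum.elim (fun M : Mon (n + 1) d => coeff (fs M.1) G) (fun _ => 0))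
  let θ : Derivation ℚ L L := Pool.Agent.H49.CI.ratD D
  have hθ : ∀ u, θ u = D u := fun u => rfl
  have hc : ∀ M, θ (c M) = coeff (fs M.1) G := fun M => by
    have := hD (Sum.inl M)
    simpa [hθ] using this
  have hx : ∀ l, θ (z 0 l) = 0 := by
    intro l
    by_cases hl : l = p
    · rw [hl, hzp, Derivation.map_one_eq_zero]
    · have := hD (Sum.inr ⟨l, hl⟩)
      simpa [hθ] using this
  have h1 := pD_resC θ z (frm c)
  rw [cD_frm' θ c G hG hc, hGP, heq, pD_exc2, Fin.sum_univ_succ] at h1
  have h2 : resC z (dir (fun i => θ (z 0 i)) (frm c)) = 0 := by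
    rw [resC_dir]
    refine Finset.sum_eq_zero fun l _ => ?_
    rw [hx, Polynomial.C_0, zero_mul]
  rw [h2, mul_zero, zero_add] at h1
  have hm : ∀ s, vR z (frm c) f α β a b s ∈
      Submodule.span L (Set.range (vR z (frm c) f α β a b)) := fun s =>
    Submodule.subset_span (Set.mem_range_self s)
  have h3 : P = θ f • vR z (frm c) f α β a b (Sum.inr 0) +
      θ α • vR z (frm c) f α β a b (Sum.inr 1) +
      θ β • vR z (frm c) f α β a b (Sum.inr 2) -
      ∑ i : Fin r, ∑ l, θ (z i.succ l) • vR z (frm c) f α β a b (Sum.inl (i, l)) := by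
    have e1 : ∀ i : Fin r, (∑ l, θ (z i.succ l) • vR z (frm c) f α β a b (Sum.inl (i, l))) =
        Polynomial.X ^ (i.succ : ℕ) * resC z (dir (fun l => θ (z i.succ l)) (frm c)) := by
      intro i
      rw [resC_dir, Finset.mul_sum]
      refine Finset.sum_congr rfl fun l _ => ?_
      rw [Polynomial.smul_eq_C_mul]
      simp only [vR, Fin.val_succ]
      ring
    simp only [e1]
    rw [Polynomial.smul_eq_C_mul, Polynomial.smul_eq_C_mul, Polynomial.smul_eq_C_mul]
    simp only [vR, v3, Matrix.cons_val_zero, Matrix.cons_val_one, Matrix.cons_val]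
    linear_combination -h1
  rw [h3]
  exact Submodule.sub_mem _ (Submodule.add_mem _ (Submodule.add_mem _
    (Submodule.smul_mem _ _ (hm _)) (Submodule.smul_mem _ _ (hm _)))
    (Submodule.smul_mem _ _ (hm _))) (Submodule.sum_mem _ fun i _ =>
      Submodule.sum_mem _ fun l _ => Submodule.smul_mem _ _ (hm _))

/-- no exceptional rational normal curves through general points -/
theorem no_excR [CharZero L] {d : ℕ} (hr : 1 ≤ r) (hd : n + 2 ≤ d) {p : Fin (n + 1)}
    {c : Mon (n + 1) d → L}
    {z : Fin (r + 1) → Fin (n + 1) → L} {f α β : L} {a b : ℕ} (hab : a + b = r * d)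
    (hzp : z 0 p = 1)
    (hind : AlgebraicIndependent ℚ
      (Sum.elim c (fun l : {l : Fin (n + 1) // l ≠ p} => z 0 l.1)))
    (hlin : LinearIndependent L z) :
    resC z (frm c) ≠ Polynomial.C f * (1 + Polynomial.C α * Polynomial.X) ^ a *
        (1 + Polynomial.C β * Polynomial.X) ^ b := by
  intro heq
  obtain ⟨v, hv⟩ : ∃ v, v = vR z (frm c) f α β a b := ⟨_, rfl⟩
  have hfin : Module.Finite L (Submodule.span L (Set.range v)) :=
    Module.Finite.span_of_finite L (Set.finite_range v)
  have h1 : Polynomial.degreeLT L (r * d + 1) ≤ Submodule.span L (Set.range v) := by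
    intro P hP
    rw [hv]
    refine mem_spanR hzp hind hlin heq P ?_
    rw [Polynomial.mem_degreeLT] at hP
    by_cases h0 : P = 0
    · rw [h0, Polynomial.natDegree_zero]
      exact Nat.zero_le _
    · have := (Polynomial.natDegree_lt_iff_degree_lt h0).2 hP
      omega
  have h2 := Submodule.finrank_mono h1
  have h3 : Module.finrank L (Polynomial.degreeLT L (r * d + 1)) = r * d + 1 := by
    rw [(Polynomial.degreeLTEquiv L (r * d + 1)).finrank_eq, Module.finrank_fin_fun]
  rw [h3, ← Fintype.range_linearCombination] at h2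
  have h4 := LinearMap.finrank_range_add_finrank_ker (Fintype.linearCombination L v)
  rw [Module.finrank_fintype_fun_eq_card, Fintype.card_sum, Fintype.card_prod, Fintype.card_fin,
    Fintype.card_fin, Fintype.card_fin] at h4
  have e1 := rel1 heq
  have e2 := rel2 (frm_homog c) hab heq
  rw [← hv] at e1 e2
  obtain ⟨w, hw⟩ : ∃ w : Fin 2 → LinearMap.ker (Fintype.linearCombination L v),
      w = ![⟨_, LinearMap.mem_ker.2 e1⟩, ⟨_, LinearMap.mem_ker.2 e2⟩] := ⟨_, rfl⟩
  have hwi : LinearIndependent L w := by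
    rw [hw, LinearIndependent.pair_iff]
    intro s t hst
    have h5 := congrArg Subtype.val hst
    have h6 : ∀ l : Fin (n + 1), s * z ((⟨0, hr⟩ : Fin r).succ) l + t * ((r : L) * z 0 l) = 0 := by
      intro l
      have h7 := congrFun h5 (Sum.inl ((⟨0, hr⟩ : Fin r), l))
      simpa using h7
    rw [Fintype.linearIndependent_iff] at hlin
    have h8 := hlin (fun j => if j = (⟨0, hr⟩ : Fin r).succ then s else
      if j = 0 then t * (r : L) else 0) (by
        funext l
        rw [Finset.sum_apply]
        simp only [Pi.smul_apply, smul_eq_mul, Pi.zero_apply]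
        refine Eq.trans ?_ (h6 l)
        rw [← Finset.sum_subset (Finset.subset_univ
          {(⟨0, hr⟩ : Fin r).succ, (0 : Fin (r + 1))})]
        · rw [Finset.sum_pair (Fin.succ_ne_zero _), if_pos rfl,
            if_neg (Fin.succ_ne_zero _).symm, if_pos rfl]
          ring
        · intro j _ hj
          rw [Finset.mem_insert, Finset.mem_singleton, not_or] at hj
          rw [if_neg hj.1, if_neg hj.2, zero_mul])
    have h9 := h8 ((⟨0, hr⟩ : Fin r).succ)
    rw [if_pos rfl] at h9
    have h10 := h8 0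
    rw [if_neg (Fin.succ_ne_zero _).symm, if_pos rfl] at h10
    have hr0 : (r : L) ≠ 0 := by
      rw [Nat.cast_ne_zero]
      omega
    exact ⟨h9, (mul_eq_zero.1 h10).resolve_right hr0⟩
  have h5 := hwi.fintype_card_le_finrank
  rw [Fintype.card_fin] at h5
  have h6 : r * (n + 2) ≤ r * d := Nat.mul_le_mul_left r hd
  have h7 : r * (n + 2) = r * (n + 1) + r := by ring
  omega

end

end Pool.Agent.H17.EE
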