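import Pool.Agent.H17.EE.XM
import Pool.Agent.H17.BO.TargetsX
import Pool.Agent.H49.CI.XEL

/-!
# MP_70ba79_ag, Theorem E, part X: the universal equation of the exceptional curves
-/

set_option autoImplicit false

namespace Pool.Agent.H17.EE

open MvPolynomial SC Pool.Agent.H27.LV Pool.Agent.H17.VG Pool.Agent.H17.BO

private theorem aeval_mono {K A : Type} [Field K] [CommRing A] [Algebra K A] {n : ℕ}
    (g : Fin (n + 1) → A) (f : Fin (n + 1) → ℕ) :
    aeval g (mono K f) = ∏ i, g i ^ f i := by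
  unfold mono
  rw [aeval_monomial, map_one, one_mul, Finsupp.prod_fintype _ _ (fun i => by simp)]
  rfl

private theorem aeval_frm {K A : Type} [Field K] [CommRing A] [Algebra K A] {n d : ℕ}
    (g : Fin (n + 1) → A) (c : Mon (n + 1) d → K) :
    aeval g (frm c) = ∑ M, algebraMap K A (c M) * ∏ i, g i ^ M.1 i := by
  unfold frm
  rw [map_sum]
  refine Finset.sum_congr rfl fun M _ => ?_
  rw [map_mul, aeval_C, aeval_mono]

/-- the curve with the first point `pt p x'` -/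
noncomputable def crv {L : Type} [Field L] {n r : ℕ} (p : Fin (n + 1))
    (x' : {l : Fin (n + 1) // l ≠ p} → L) (w : Fin r × Fin (n + 1) → L) :
    Fin (r + 1) → Fin (n + 1) → L := Fin.cons (pt p x') fun i l => w (i, l)

/-- the exceptional curves are given by polynomial equations -/
theorem xpr (n d r a b : ℕ) (p : Fin (n + 1)) :
    ∃ I : Set (MvPolynomial ((Mon (n + 1) d ⊕ {l : Fin (n + 1) // l ≠ p}) ⊕
      ((Fin r × Fin (n + 1)) ⊕ (Fin (n + 1) × Fin (r + 1)) ⊕ Fin 2)) ℚ),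
    ∀ (L : Type) [Field L] [CharZero L]
      (c : Mon (n + 1) d → L) (x' : {l : Fin (n + 1) // l ≠ p} → L)
      (w : Fin r × Fin (n + 1) → L) (W : Fin (n + 1) × Fin (r + 1) → L) (t : Fin 2 → L),
      (∀ f ∈ I, aeval (Sum.elim (Sum.elim c x') (Sum.elim w (Sum.elim W t))) f = 0) ↔
        (∀ i j, ∑ l, crv p x' w i l * W (l, j) = if i = j then 1 else 0) ∧
        resC (crv p x' w) (frm c) = Polynomial.C (eval (pt p x') (frm c)) *
          (1 + Polynomial.C (t 0) * Polynomial.X) ^ a *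
          (1 + Polynomial.C (t 1) * Polynomial.X) ^ b := by
  classical
  obtain ⟨ch, hch⟩ : ∃ ch : Mon (n + 1) d → MvPolynomial ((Mon (n + 1) d ⊕
      {l : Fin (n + 1) // l ≠ p}) ⊕ ((Fin r × Fin (n + 1)) ⊕ (Fin (n + 1) × Fin (r + 1)) ⊕
        Fin 2)) ℚ, ch = fun M => X (Sum.inl (Sum.inl M)) := ⟨_, rfl⟩
  obtain ⟨xh, hxh⟩ : ∃ xh : Fin (n + 1) → MvPolynomial ((Mon (n + 1) d ⊕
      {l : Fin (n + 1) // l ≠ p}) ⊕ ((Fin r × Fin (n + 1)) ⊕ (Fin (n + 1) × Fin (r + 1)) ⊕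
        Fin 2)) ℚ, xh = fun l => if h : l = p then 1 else X (Sum.inl (Sum.inr ⟨l, h⟩)) := ⟨_, rfl⟩
  obtain ⟨zh, hzh⟩ : ∃ zh : Fin (r + 1) → Fin (n + 1) → MvPolynomial ((Mon (n + 1) d ⊕
      {l : Fin (n + 1) // l ≠ p}) ⊕ ((Fin r × Fin (n + 1)) ⊕ (Fin (n + 1) × Fin (r + 1)) ⊕
        Fin 2)) ℚ, zh = Fin.cons xh fun i l => X (Sum.inr (Sum.inl (i, l))) := ⟨_, rfl⟩
  obtain ⟨Wh, hWh⟩ : ∃ Wh : Fin (n + 1) → Fin (r + 1) → MvPolynomial ((Mon (n + 1) d ⊕
      {l : Fin (n + 1) // l ≠ p}) ⊕ ((Fin r × Fin (n + 1)) ⊕ (Fin (n + 1) × Fin (r + 1)) ⊕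
        Fin 2)) ℚ, Wh = fun l j => X (Sum.inr (Sum.inr (Sum.inl (l, j)))) := ⟨_, rfl⟩
  obtain ⟨th, hth⟩ : ∃ th : Fin 2 → MvPolynomial ((Mon (n + 1) d ⊕
      {l : Fin (n + 1) // l ≠ p}) ⊕ ((Fin r × Fin (n + 1)) ⊕ (Fin (n + 1) × Fin (r + 1)) ⊕
        Fin 2)) ℚ, th = fun l => X (Sum.inr (Sum.inr (Sum.inr l))) := ⟨_, rfl⟩
  obtain ⟨G, hG⟩ : ∃ G : Polynomial (MvPolynomial ((Mon (n + 1) d ⊕
      {l : Fin (n + 1) // l ≠ p}) ⊕ ((Fin r × Fin (n + 1)) ⊕ (Fin (n + 1) × Fin (r + 1)) ⊕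
        Fin 2)) ℚ),
      G = ∑ M, Polynomial.C (ch M) * ∏ l, (∑ j : Fin (r + 1), Polynomial.C (zh j l) *
        Polynomial.X ^ (j : ℕ)) ^ M.1 l := ⟨_, rfl⟩
  obtain ⟨E, hE⟩ : ∃ E : MvPolynomial ((Mon (n + 1) d ⊕
      {l : Fin (n + 1) // l ≠ p}) ⊕ ((Fin r × Fin (n + 1)) ⊕ (Fin (n + 1) × Fin (r + 1)) ⊕
        Fin 2)) ℚ, E = ∑ M, ch M * ∏ l, xh l ^ M.1 l := ⟨_, rfl⟩
  obtain ⟨Q, hQ⟩ : ∃ Q : Polynomial (MvPolynomial ((Mon (n + 1) d ⊕
      {l : Fin (n + 1) // l ≠ p}) ⊕ ((Fin r × Fin (n + 1)) ⊕ (Fin (n + 1) × Fin (r + 1)) ⊕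
        Fin 2)) ℚ),
      Q = G - Polynomial.C E * (1 + Polynomial.C (th 0) * Polynomial.X) ^ a *
        (1 + Polynomial.C (th 1) * Polynomial.X) ^ b := ⟨_, rfl⟩
  refine ⟨{f | ∃ i j, f = ∑ l, zh i l * Wh l j - (if i = j then 1 else 0)} ∪
    {f | ∃ m, f = Q.coeff m}, ?_⟩
  intro L _ _ c x' w W t
  obtain ⟨φ, hφ⟩ : ∃ φ : MvPolynomial ((Mon (n + 1) d ⊕
      {l : Fin (n + 1) // l ≠ p}) ⊕ ((Fin r × Fin (n + 1)) ⊕ (Fin (n + 1) × Fin (r + 1)) ⊕
        Fin 2)) ℚ →ₐ[ℚ] L,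
      φ = aeval (Sum.elim (Sum.elim c x') (Sum.elim w (Sum.elim W t))) := ⟨_, rfl⟩
  rw [← hφ]
  have h1 : ∀ M, φ (ch M) = c M := by
    intro M
    rw [hφ, hch]
    simp
  have h2 : ∀ l, φ (xh l) = pt p x' l := by
    intro l
    rw [hφ, hxh]
    unfold pt
    by_cases h : l = p
    · simp [h]
    · simp [h]
  have h3 : ∀ i l, φ (zh i l) = crv p x' w i l := by
    intro i l
    rw [hzh]
    unfold crv
    refine Fin.cases ?_ (fun i => ?_) i
    · rw [Fin.cons_zero, Fin.cons_zero]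
      exact h2 l
    · rw [Fin.cons_succ, Fin.cons_succ, hφ]
      simp
  have h4 : ∀ l j, φ (Wh l j) = W (l, j) := by
    intro l j
    rw [hφ, hWh]
    simp
  have h5 : ∀ l, φ (th l) = t l := by
    intro l
    rw [hφ, hth]
    simp
  have hGm : G.map (φ : _ →+* L) = resC (crv p x' w) (frm c) := by
    unfold resC
    rw [aeval_frm, hG, Polynomial.map_sum]
    refine Finset.sum_congr rfl fun M _ => ?_
    rw [Polynomial.map_mul, Polynomial.map_prod, Polynomial.map_C]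
    have e1 : (φ : _ →+* L) (ch M) = c M := h1 M
    rw [e1]
    congr 1
    refine Finset.prod_congr rfl fun l _ => ?_
    rw [Polynomial.map_pow, Polynomial.map_sum]
    congr 1
    refine Finset.sum_congr rfl fun j _ => ?_
    rw [Polynomial.map_mul, Polynomial.map_pow, Polynomial.map_C, Polynomial.map_X]
    have e3 : (φ : _ →+* L) (zh j l) = crv p x' w j l := h3 j l
    rw [e3]
  have hEm : φ E = eval (pt p x') (frm c) := by
    have e0 : eval (pt p x') (frm c) = aeval (pt p x') (frm c) := by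
      rw [aeval_eq_eval]
    rw [e0, aeval_frm, hE, map_sum]
    refine Finset.sum_congr rfl fun M _ => ?_
    rw [map_mul, h1, map_prod]
    congr 1
    refine Finset.prod_congr rfl fun l _ => ?_
    rw [map_pow, h2]
  have hDm : ∀ i j, φ (∑ l, zh i l * Wh l j - (if i = j then 1 else 0)) =
      ∑ l, crv p x' w i l * W (l, j) - (if i = j then 1 else 0) := by
    intro i j
    rw [map_sub, map_sum]
    congr 1
    · refine Finset.sum_congr rfl fun l _ => ?_
      rw [map_mul, h3, h4]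
    · by_cases h : i = j
      · rw [if_pos h, if_pos h, map_one]
      · rw [if_neg h, if_neg h, map_zero]
  have hQm : Q.map (φ : _ →+* L) = resC (crv p x' w) (frm c) -
      Polynomial.C (eval (pt p x') (frm c)) * (1 + Polynomial.C (t 0) * Polynomial.X) ^ a *
        (1 + Polynomial.C (t 1) * Polynomial.X) ^ b := by
    rw [hQ]
    simp only [Polynomial.map_sub, Polynomial.map_mul, Polynomial.map_pow, Polynomial.map_add,
      Polynomial.map_one, Polynomial.map_C, Polynomial.map_X]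
    rw [hGm]
    have e1 : (φ : _ →+* L) E = eval (pt p x') (frm c) := hEm
    have e2 : (φ : _ →+* L) (th 0) = t 0 := h5 0
    have e3 : (φ : _ →+* L) (th 1) = t 1 := h5 1
    rw [e1, e2, e3]
  constructor
  · intro h
    refine ⟨fun i j => ?_, ?_⟩
    · have e1 := h _ (Or.inl ⟨i, j, rfl⟩)
      rw [hDm] at e1
      exact sub_eq_zero.1 e1
    · rw [← sub_eq_zero, ← hQm]
      ext m
      rw [Polynomial.coeff_zero, Polynomial.coeff_map]
      exact h _ (Or.inr ⟨m, rfl⟩)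
  · rintro ⟨e1, e2⟩ f (⟨i, j, rfl⟩ | ⟨m, rfl⟩)
    · rw [hDm, e1, sub_self]
    · rw [e2, sub_self] at hQm
      have e5 := congrArg (fun p => Polynomial.coeff p m) hQm
      simp only [Polynomial.coeff_map, Polynomial.coeff_zero] at e5
      exact e5

/-- the universal equation -/
theorem uer (n d r a b : ℕ) (p : Fin (n + 1)) (hr : 1 ≤ r) (hab : a + b = r * d)
    (hnd : n + 2 ≤ d) :
    ∃ Ψ : MvPolynomial (Mon (n + 1) d ⊕ {l : Fin (n + 1) // l ≠ p}) ℚ, Ψ ≠ 0 ∧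
    ∀ (L : Type) [Field L] [CharZero L] (c : Mon (n + 1) d → L)
      (z : Fin (r + 1) → Fin (n + 1) → L)
      (α β : L), z 0 p = 1 → LinearIndependent L z →
      resC z (frm c) = Polynomial.C (eval (z 0) (frm c)) *
        (1 + Polynomial.C α * Polynomial.X) ^ a * (1 + Polynomial.C β * Polynomial.X) ^ b →
      aeval (Sum.elim c (fun l : {l : Fin (n + 1) // l ≠ p} => z 0 l.1)) Ψ = 0 := by
  classical
  obtain ⟨x0, hx0⟩ : ∃ x0 : (Mon (n + 1) d ⊕ {l : Fin (n + 1) // l ≠ p}) →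
      FractionRing (MvPolynomial (Mon (n + 1) d ⊕ {l : Fin (n + 1) // l ≠ p}) ℚ),
      AlgebraicIndependent ℚ x0 := by
    refine ⟨fun s => algebraMap (MvPolynomial (Mon (n + 1) d ⊕ {l : Fin (n + 1) // l ≠ p}) ℚ) _
      (X s), ?_⟩
    have h1 := MvPolynomial.algebraicIndependent_X (Mon (n + 1) d ⊕ {l : Fin (n + 1) // l ≠ p}) ℚ
    have h2 := h1.map' (f := IsScalarTower.toAlgHom ℚ
      (MvPolynomial (Mon (n + 1) d ⊕ {l : Fin (n + 1) // l ≠ p}) ℚ)
      (FractionRing (MvPolynomial (Mon (n + 1) d ⊕ {l : Fin (n + 1) // l ≠ p}) ℚ)))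
      (IsFractionRing.injective _ _)
    exact h2
  obtain ⟨I, hI⟩ := xpr n d r a b p
  have hcrv : ∀ (L : Type) [Field L] (z : Fin (r + 1) → Fin (n + 1) → L), z 0 p = 1 →
      crv p (fun l : {l : Fin (n + 1) // l ≠ p} => z 0 l.1) (fun t => z t.1.succ t.2) = z := by
    intro L _ z hz
    funext i
    unfold crv
    refine Fin.cases ?_ (fun i => ?_) i
    · rw [Fin.cons_zero]
      funext l
      unfold pt
      by_cases h : l = p
      · rw [dif_pos h, h, hz]
      · rw [dif_neg h]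
    · rw [Fin.cons_succ]
  rcases Pool.Agent.H49.CI.pf_XEL ℚ _ _ I _ x0 with ⟨Φ, hΦ, hspan⟩ | ⟨Ω, iF, iA, x, y, hf, hsp⟩
  · refine ⟨Φ, ?_, ?_⟩
    · rintro rfl
      exact hΦ (map_zero _)
    · intro L _ _ c z α β hz hlin hres
      obtain ⟨W, hW⟩ := exists_leftInv hlin
      have hz' := hcrv L z hz
      have hpt : pt p (fun l : {l : Fin (n + 1) // l ≠ p} => z 0 l.1) = z 0 := by
        have := congrFun hz' 0
        unfold crv at this
        rwa [Fin.cons_zero] at this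
      have h2 := (hI L c (fun l => z 0 l.1) (fun t => z t.1.succ t.2) (fun t => W t.1 t.2)
        ![α, β]).2 ⟨by
          rw [hz']
          exact hW, by
          rw [hz', hpt]
          simp only [Matrix.cons_val_zero, Matrix.cons_val_one]
          exact hres⟩
      obtain ⟨v, hv⟩ : ∃ v : (Mon (n + 1) d ⊕ {l : Fin (n + 1) // l ≠ p}) ⊕
        ((Fin r × Fin (n + 1)) ⊕ (Fin (n + 1) × Fin (r + 1)) ⊕ Fin 2) → L,
          v = (Sum.elim (Sum.elim c fun l => z 0 l.1) (Sum.elim (fun t => z t.1.succ t.2)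
            (Sum.elim (fun t => W t.1 t.2) ![α, β]))) := ⟨_, rfl⟩
      rw [← hv] at h2
      have h3 : ∀ f ∈ Ideal.span I, aeval v f = 0 := by
        intro f hf
        have h4 : Ideal.span I ≤ RingHom.ker (aeval (R := ℚ) v) := by
          rw [Ideal.span_le]
          intro g hg
          exact h2 g hg
        exact h4 hf
      have h5 := h3 _ hspan
      rw [aeval_rename] at h5
      have h6 : v ∘ Sum.inl = Sum.elim c fun l => z 0 l.1 := by
        rw [hv]
        rfl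
      rw [h6] at h5
      exact h5
  · exfalso
    have : CharZero Ω := charZero_of_injective_algebraMap (algebraMap ℚ Ω).injective
    obtain rfl : iA = DivisionRing.toRatAlgebra := Subsingleton.elim _ _
    obtain ⟨c, hc⟩ : ∃ c : Mon (n + 1) d → Ω, c = fun M => x (Sum.inl M) := ⟨_, rfl⟩
    obtain ⟨x', hx'⟩ : ∃ x' : {l : Fin (n + 1) // l ≠ p} → Ω, x' = fun l => x (Sum.inr l) :=
      ⟨_, rfl⟩
    obtain ⟨w, hw⟩ : ∃ w : Fin r × Fin (n + 1) → Ω, w = fun l => y (Sum.inl l) := ⟨_, rfl⟩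
    obtain ⟨W, hW⟩ : ∃ W : Fin (n + 1) × Fin (r + 1) → Ω, W = fun l => y (Sum.inr (Sum.inl l)) :=
      ⟨_, rfl⟩
    obtain ⟨t, ht⟩ : ∃ t : Fin 2 → Ω, t = fun l => y (Sum.inr (Sum.inr l)) := ⟨_, rfl⟩
    have hx : x = Sum.elim c x' := by
      funext s
      rcases s with s | s
      · rw [hc]; rfl
      · rw [hx']; rfl
    have hy : y = Sum.elim w (Sum.elim W t) := by
      funext s
      rcases s with s | s | s
      · rw [hw]; rfl
      · rw [hW]; rfl
      · rw [ht]; rfl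
    rw [hx, hy] at hf
    obtain ⟨h1, h2⟩ := (hI Ω c x' w W t).1 hf
    have hz0 : crv p x' w 0 = pt p x' := by
      unfold crv
      rw [Fin.cons_zero]
    have hpt : ∀ l : {l : Fin (n + 1) // l ≠ p}, pt p x' l.1 = x' l := by
      intro l
      unfold pt
      rw [dif_neg l.2]
    refine no_excR (z := crv p x' w) (c := c) (p := p) (f := eval (pt p x') (frm c))
      (α := t 0) (β := t 1) hr hnd hab ?_ ?_
      (linInd_of_leftInv (W := fun l j => W (l, j)) h1) h2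
    · rw [hz0]
      unfold pt
      rw [dif_pos rfl]
    · have h5 : (Sum.elim c fun l : {l : Fin (n + 1) // l ≠ p} => crv p x' w 0 l.1) = x := by
        rw [hx]
        congr 1
        funext l
        rw [hz0]
        exact hpt l
      rw [h5, algebraicIndependent_iff]
      intro P hP
      exact (algebraicIndependent_iff.1 hx0) P (hsp P hP)

end Pool.Agent.H17.EE
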