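import Pool.Agent.H17.EE.XP
import Pool.Agent.H70.BO.XC

/-!
# MP_70ba79_ag, Theorem E, part X: the hypersurface of the exceptional rational normal curves
-/

set_option autoImplicit false

namespace Pool.Agent.H17.EE

open MvPolynomial SC Pool.Agent.H27.LV Pool.Agent.H17.VG

open Pool.Agent.H70.BO.XC in
/-- XR: there is a hypersurface which contains all points on exceptional rational normal curves of
degree at most `R` -/
theorem pf_XR : T_XR := by
  classical
  intro k _ _ n d R c hd hc
  choose! Ψ hΨ0 hΨ using fun (a : ℕ × ℕ × Fin (n + 1))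
    (ha : 1 ≤ a.1 ∧ a.2.1 + (a.1 * d - a.2.1) = a.1 * d) =>
    uer n d a.1 a.2.1 (a.1 * d - a.2.1) a.2.2 ha.1 ha.2 hd
  let φ : ℕ × ℕ × Fin (n + 1) → MvPolynomial (Fin (n + 1)) k := fun a =>
    hmg a.2.2 (sub c (Ψ a))
  let s : Finset (ℕ × ℕ × Fin (n + 1)) :=
    (Finset.range (R + 1) ×ˢ (Finset.range (R * d + 1) ×ˢ Finset.univ)).filter
      fun a => 1 ≤ a.1 ∧ a.2.1 ≤ a.1 * d
  have hs : ∀ a ∈ s, 1 ≤ a.1 ∧ a.2.1 ≤ a.1 * d := by
    intro a ha
    exact (Finset.mem_filter.1 ha).2
  refine ⟨∏ a ∈ s, φ a, ∑ a ∈ s,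
    (rename Subtype.val (sub c (Ψ a)) : MvPolynomial (Fin (n + 1)) k).totalDegree, ?_, ?_, ?_⟩
  · rw [Finset.prod_ne_zero_iff]
    intro a ha
    obtain ⟨h1, h2⟩ := hs a ha
    exact hmg_ne _ (sub_ne hc (hΨ0 a ⟨h1, by omega⟩))
  · exact IsHomogeneous.prod _ _ _ fun a _ => hmg_homog _ _
  · intro K _ _ r z p hr hrR hp hli hT
    have hK : CharZero K := charZero_of_injective_algebraMap (algebraMap k K).injective
    obtain ⟨α, β, a, b, hab, hres⟩ := hT
    have hL : CharZero (AlgebraicClosure K) :=
      charZero_of_injective_algebraMap (algebraMap K (AlgebraicClosure K)).injective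
    obtain rfl : b = r * d - a := by omega
    have hmap : MvPolynomial.map (algebraMap K (AlgebraicClosure K)) (up K (frm c)) =
        frm fun M => algebraMap k (AlgebraicClosure K) (c M) := by
      unfold up
      rw [MvPolynomial.map_map, ← IsScalarTower.algebraMap_eq, frm_map]
    have hli₂ : LinearIndependent (AlgebraicClosure K)
        (fun j l => algebraMap K (AlgebraicClosure K) (z j l)) := by
      obtain ⟨W, hW⟩ := exists_leftInv hli
      refine linInd_of_leftInv (W := fun l j => algebraMap K (AlgebraicClosure K) (W l j)) ?_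
      intro i j
      have h1 := congrArg (algebraMap K (AlgebraicClosure K)) (hW i j)
      rw [map_sum] at h1
      simp only [map_mul] at h1
      rw [h1]
      by_cases h : i = j
      · rw [if_pos h, if_pos h, map_one]
      · rw [if_neg h, if_neg h, map_zero]
    have key := hΨ (r, a, p) ⟨hr, by change a + (r * d - a) = r * d; omega⟩ (AlgebraicClosure K)
      (fun M => algebraMap k (AlgebraicClosure K) (c M))
      (fun j l => algebraMap K (AlgebraicClosure K) (z j l)) α β
      (by change algebraMap K (AlgebraicClosure K) (z 0 p) = 1; rw [hp, map_one]) hli₂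
      (by
        rw [← hmap, ← resC_map, hres, eval_map'])
    have h1 : algebraMap K (AlgebraicClosure K) (eval (z 0) (up K (∏ a ∈ s, φ a))) =
        aeval (fun l => algebraMap K (AlgebraicClosure K) (z 0 l)) (∏ a ∈ s, φ a) := by
      rw [← eval_map']
      unfold up
      rw [MvPolynomial.map_map, ← IsScalarTower.algebraMap_eq, eval_map, ← aeval_def]
    have h2 : aeval (fun l => algebraMap K (AlgebraicClosure K) (z 0 l)) (∏ a ∈ s, φ a) =
        (0 : AlgebraicClosure K) := by
      rw [map_prod]
      refine Finset.prod_eq_zero (i := (r, a, p)) ?_ ?_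
      · refine Finset.mem_filter.2 ⟨Finset.mem_product.2 ⟨?_, Finset.mem_product.2 ⟨?_, ?_⟩⟩, ?_⟩
        · exact Finset.mem_range.2 (Nat.lt_succ_of_le hrR)
        · refine Finset.mem_range.2 (Nat.lt_succ_of_le ?_)
          have h3 : r * d ≤ R * d := Nat.mul_le_mul_right d hrR
          change a ≤ R * d
          omega
        · exact Finset.mem_univ _
        · refine ⟨hr, ?_⟩
          change a ≤ r * d
          omega
      · change aeval _ (hmg p (sub c (Ψ (r, a, p)))) = (0 : AlgebraicClosure K)
        rw [aeval_hmg p _ _ (by rw [hp, map_one]), aeval_sub]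
        exact key
    rw [h2, map_eq_zero] at h1
    exact h1

end Pool.Agent.H17.EE
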